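import Pool.Agent.Q5.HR.Law

/-! Wide families of finite extensions. -/

set_option autoImplicit false
set_option linter.unusedSectionVars false

namespace Pool.Agent.Q5.HR

open NumberField IsDedekindDomain Filter Pool.Agent.H341R2 Pool.Agent.H341R2.EC
  Pool.Agent.H921R2.TatePole Pool.Agent.W353.NF Pool.Agent.W401.Cheb Pool.Agent.Q5.BR
open scoped Topology Classical

section
variable {K : Type} [Field K] [NumberField K]

/-- wide families -/
def Wide (𝓕 : Set (IntermediateField K (AlgebraicClosure K))) : Prop :=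
  (∀ F ∈ 𝓕, FiniteDimensional K F) ∧
  (∀ F ∈ 𝓕, ∀ F' : IntermediateField K (AlgebraicClosure K), FiniteDimensional K F' → F ≤ F' →
    F' ∈ 𝓕) ∧
  ∀ σ : GK K, ∃ F ∈ 𝓕, ∀ x ∈ F, σ x = x

theorem Wide.inter {𝓕 𝓖 : Set (IntermediateField K (AlgebraicClosure K))} (hF : Wide 𝓕)
    (hG : Wide 𝓖) : Wide (𝓕 ∩ 𝓖) := by
  refine ⟨fun F h => hF.1 F h.1, fun F h F' hfd hle => ⟨hF.2.1 F h.1 F' hfd hle,
    hG.2.1 F h.2 F' hfd hle⟩, fun σ => ?_⟩
  obtain ⟨F, hFm, hF'⟩ := hF.2.2 σ
  obtain ⟨G, hGm, hG'⟩ := hG.2.2 σ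
  have h1 := hF.1 F hFm
  have h2 := hG.1 G hGm
  have h3 : FiniteDimensional K (F ⊔ G : IntermediateField K (AlgebraicClosure K)) :=
    IntermediateField.finiteDimensional_sup F G
  refine ⟨F ⊔ G, ⟨hF.2.1 F hFm _ h3 le_sup_left, hG.2.1 G hGm _ h3 le_sup_right⟩, ?_⟩
  have h4 : F ⊔ G ≤ fx σ := sup_le (fun x hx => mem_fx.2 (hF' x hx)) (fun x hx => mem_fx.2 (hG' x hx))
  exact fun x hx => mem_fx.1 (h4 hx)

theorem fixn_congr {F F' : Type} [Field F] [Field F'] [Algebra K F] [Algebra K F']
    (e : F ≃ₐ[K] F') (σ : GK K) : fixn K F σ = fixn K F' σ := by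
  unfold fixn
  refine Nat.card_congr ⟨fun i => ⟨i.1.comp (e.symm : F' →ₐ[K] F), ?_⟩,
    fun i => ⟨i.1.comp (e : F →ₐ[K] F'), ?_⟩, fun i => ?_, fun i => ?_⟩
  · have h : (σ : AlgebraicClosure K →ₐ[K] AlgebraicClosure K).comp i.1 = i.1 := i.2
    change (σ : AlgebraicClosure K →ₐ[K] AlgebraicClosure K).comp
      (i.1.comp (e.symm : F' →ₐ[K] F)) = _
    rw [← AlgHom.comp_assoc, h]
  · have h : (σ : AlgebraicClosure K →ₐ[K] AlgebraicClosure K).comp i.1 = i.1 := i.2
    change (σ : AlgebraicClosure K →ₐ[K] AlgebraicClosure K).comp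
      (i.1.comp (e : F →ₐ[K] F')) = _
    rw [← AlgHom.comp_assoc, h]
  · apply Subtype.ext
    apply AlgHom.ext
    intro x
    change i.1 (e.symm (e x)) = i.1 x
    rw [AlgEquiv.symm_apply_apply]
  · apply Subtype.ext
    apply AlgHom.ext
    intro x
    change i.1 (e (e.symm x)) = i.1 x
    rw [AlgEquiv.apply_symm_apply]

/-- **The relation in a wide family.** -/
theorem wide_relation {𝓕 : Set (IntermediateField K (AlgebraicClosure K))} (hF : Wide 𝓕) :
    ∃ (ι : Type) (_ : Fintype ι) (F : ι → IntermediateField K (AlgebraicClosure K)) (n : ι → ℤ)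
      (m : ℕ), 0 < m ∧ (∀ j, F j ∈ 𝓕) ∧ ∀ σ : GK K, ∑ j, n j * (fixn K (F j) σ : ℤ) = m := by
  choose f hf hfx using hF.2.2
  have hfd : ∀ σ, FiniteDimensional K (f σ) := fun σ => hF.1 _ (hf σ)
  obtain ⟨t, -, ht⟩ := (isCompact_univ : IsCompact (Set.univ : Set (GK K))).elim_nhds_subcover
    (fun σ => ((f σ).fixingSubgroup : Set (GK K))) (fun σ _ =>
      (f σ).fixingSubgroup_isOpen.mem_nhds fun x => hfx σ x.1 x.2)
  let N : IntermediateField K (AlgebraicClosure K) :=
    ⨆ j : t, IntermediateField.normalClosure K (f j) (AlgebraicClosure K)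
  have hfdN : FiniteDimensional K N := by
    have : ∀ j : t, FiniteDimensional K
      (IntermediateField.normalClosure K (f j) (AlgebraicClosure K)) := fun j => inferInstance
    exact IntermediateField.finiteDimensional_iSup_of_finite
  have hnor : Normal K N := by
    have : ∀ j : t, Normal K (IntermediateField.normalClosure K (f j) (AlgebraicClosure K)) :=
      fun j => inferInstance
    exact IntermediateField.normal_iSup K (AlgebraicClosure K) _
  have hle : ∀ τ ∈ t, f τ ≤ N := fun τ hτ =>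
    (IntermediateField.le_normalClosure (f τ)).trans
      (le_iSup (fun j : t => IntermediateField.normalClosure K (f j) (AlgebraicClosure K)) ⟨τ, hτ⟩)
  obtain ⟨ι, hι, B, n, hB, hrel⟩ := artin_relation N
  refine ⟨ι, hι, fun j => IntermediateField.lift (IntermediateField.fixedField (B j)), n,
    Nat.card (N ≃ₐ[K] N), Nat.card_pos, fun j => ?_, fun σ => ?_⟩
  · obtain ⟨g, hg⟩ := hB j
    obtain ⟨σ, hσ⟩ := AlgEquiv.restrictNormalHom_surjective (AlgebraicClosure K) (K₁ := N) g
    obtain ⟨τ, hτ⟩ := Set.mem_iUnion.1 (ht (Set.mem_univ σ))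
    obtain ⟨hτt, hτ'⟩ := Set.mem_iUnion.1 hτ
    refine hF.2.1 _ (hf τ) _ ?_ ?_
    · exact LinearEquiv.finiteDimensional
        (IntermediateField.liftAlgEquiv (IntermediateField.fixedField (B j))).toLinearEquiv
    · intro x hx
      have hxN : x ∈ N := hle τ hτt hx
      have h1 : (⟨x, hxN⟩ : N) ∈ IntermediateField.fixedField (B j) := by
        rw [IntermediateField.mem_fixedField_iff, hg]
        have h2 : g ⟨x, hxN⟩ = ⟨x, hxN⟩ := by
          apply (algebraMap N (AlgebraicClosure K)).injective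
          rw [← hσ]
          have h3 := AlgEquiv.restrictNormal_commutes σ N ⟨x, hxN⟩
          refine h3.trans ?_
          exact hτ' ⟨x, hx⟩
        rintro _ ⟨k, rfl⟩
        have h4 : g ∈ MulAction.stabilizer (N ≃ₐ[K] N) (⟨x, hxN⟩ : N) := h2
        exact Subgroup.zpow_mem _ h4 k
      exact (IntermediateField.mem_lift ⟨x, hxN⟩).2 h1
  · rw [← hrel σ]
    refine Finset.sum_congr rfl fun j _ => ?_
    rw [fixn_congr (IntermediateField.liftAlgEquiv (IntermediateField.fixedField (B j))) σ]

/-- **The criterion.** -/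
theorem crit {U : Set (Set ℂ)} (hU : IsDomains U) {E : WeierstrassCurve K} (hE : E.IsElliptic)
    {𝓕 : Set (IntermediateField K (AlgebraicClosure K))} (hF : Wide 𝓕)
    (h : ∀ F ∈ 𝓕, ∀ [NumberField F], AllB U (E.map (algebraMap K F)) 1
      (BR.rk (E.map (algebraMap K F)))) :
    ∃ m : ℕ, 0 < m ∧ AllB U E (m : ℤ) ((m : ℤ) * BR.rk E) := by
  obtain ⟨ι, _, F, n, m, hm, hFj, hrel⟩ := wide_relation hF
  refine ⟨m, hm, ?_⟩
  have hfd : ∀ j, FiniteDimensional K (F j) := fun j => hF.1 _ (hFj j)
  have hnf : ∀ j, NumberField (F j) := fun j => NumberField.of_module_finite K _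
  let X : ι → Ext K := fun j => @Ext.mk K _ _ (F j) _ (hnf j) _
  have h1 := bsd_rel (X := X) hU hE hrel 1 (by
    intro j
    rw [one_mul]
    exact h (F j) (hFj j))
  rw [mul_one] at h1
  exact h1

/-- **The rank.** -/
theorem wide_rank {W : WeierstrassCurve K} (hW : W.IsElliptic) (h4 : W.c₄ ≠ 0) (h6 : W.c₆ ≠ 0)
    (R : ℕ) : Wide {F : IntermediateField K (AlgebraicClosure K) | FiniteDimensional K F ∧
      R ≤ BR.rk (W.map (algebraMap K F))} := by
  refine ⟨fun F h => h.1, fun F h F' hfd hle => ⟨hfd, h.2.trans ?_⟩, fun σ => ?_⟩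
  · have : NumberField F' := NumberField.of_module_finite K _
    exact rk_le hW (IntermediateField.inclusion hle)
  · obtain ⟨N, hN, hR⟩ := tower hW h4 h6 R
    have hfdN := hN.fd
    have hfdF : FiniteDimensional K (N ⊓ fx σ : IntermediateField K (AlgebraicClosure K)) :=
      FiniteDimensional.of_injective (IntermediateField.inclusion
        (inf_le_left : N ⊓ fx σ ≤ N)).toLinearMap
        (IntermediateField.inclusion (inf_le_left : N ⊓ fx σ ≤ N)).injective
    exact ⟨N ⊓ fx σ, ⟨hfdF, hR σ⟩, fun x hx => mem_fx.1 hx.2⟩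

/-- **A step for the degree.** -/
theorem deg_step (σ : GK K) {L : IntermediateField K (AlgebraicClosure K)}
    (hL : FiniteDimensional K L) (hLσ : L ≤ fx σ) (p : ℕ) [hp : Fact p.Prime] :
    ∃ L' : IntermediateField K (AlgebraicClosure K), FiniteDimensional K L' ∧ L' ≤ fx σ ∧
      Module.finrank K L' = Module.finrank K L * p := by
  have hnf : NumberField L := NumberField.of_module_finite K _
  have hinf : {l : ℕ | l.Prime}.Infinite := Nat.infinite_setOfPred_prime
  obtain ⟨l₂, hl₂, hb⟩ := exists_prime_not_pow L hp.out.two_le (fun l hl => hl) hinf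
  obtain ⟨β, hβ⟩ := IsAlgClosed.exists_pow_nat_eq ((l₂ : ℕ) : AlgebraicClosure K) hp.out.pos
  let L₂ : IntermediateField K (AlgebraicClosure K) := L ⊔ IntermediateField.adjoin K {β}
  have hfd2 : FiniteDimensional K (IntermediateField.adjoin K {β}) :=
    IntermediateField.adjoin.finiteDimensional (Algebra.IsIntegral.isIntegral β)
  have hfdL₂ : FiniteDimensional K L₂ := IntermediateField.finiteDimensional_sup _ _
  have hnf2 : NumberField L₂ := NumberField.of_module_finite K _
  obtain ⟨l₁, hl₁, ha⟩ := exists_prime_not_pow L₂ hp.out.two_le (fun l hl => hl) hinf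
  have hl₁K : (l₁ : K) ≠ 0 := by exact_mod_cast (show l₁.Prime from hl₁).ne_zero
  have hl₂K : (l₂ : K) ≠ 0 := by exact_mod_cast (show l₂.Prime from hl₂).ne_zero
  -- the products are not powers
  have hab : ∀ (i : ℕ) (x : L), x ^ p ≠ (l₁ : L) * (l₂ : L) ^ i := by
    intro i x hx
    have hβ0 : β ≠ 0 := by
      rintro rfl
      rw [zero_pow hp.out.ne_zero] at hβ
      exact (show l₂.Prime from hl₂).ne_zero (by exact_mod_cast hβ.symm)
    have hβL : β ∈ L₂ := (le_sup_right : IntermediateField.adjoin K {β} ≤ L₂)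
      (IntermediateField.subset_adjoin K _ rfl)
    have hxL : (x : AlgebraicClosure K) ∈ L₂ := (le_sup_left : L ≤ L₂) x.2
    have h1 : (x : AlgebraicClosure K) * (β⁻¹) ^ i ∈ L₂ :=
      mul_mem hxL (pow_mem (inv_mem hβL) i)
    refine ha ⟨_, h1⟩ ?_
    apply Subtype.ext
    change ((x : AlgebraicClosure K) * (β⁻¹) ^ i) ^ p = ((l₁ : L₂) : AlgebraicClosure K)
    have h2 : ((x : AlgebraicClosure K)) ^ p =
        (l₁ : AlgebraicClosure K) * (l₂ : AlgebraicClosure K) ^ i := by
      have h3 := congrArg (fun z : L => (z : AlgebraicClosure K)) hx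
      push_cast at h3
      exact h3
    have h4 : ((l₁ : L₂) : AlgebraicClosure K) = (l₁ : AlgebraicClosure K) := by push_cast; rfl
    rw [h4, mul_pow, h2, ← pow_mul, mul_comm i p, pow_mul, inv_pow, hβ, inv_pow]
    have h5 : ((l₂ : AlgebraicClosure K)) ^ i ≠ 0 := by
      apply pow_ne_zero
      exact_mod_cast (show l₂.Prime from hl₂).ne_zero
    field_simp
  -- a fixed root
  obtain ⟨c, hc, η, hη, hση⟩ : ∃ c : L, (∀ x : L, x ^ p ≠ c) ∧ ∃ η : AlgebraicClosure K,
      η ^ p = (c : AlgebraicClosure K) ∧ σ η = η := by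
    by_contra hcon
    push Not at hcon
    have h0 : ∀ (c₀ : K), (∀ x : L, x ^ p ≠ algebraMap K L c₀) → Rt p c₀ σ = 0 := by
      intro c₀ hc₀
      unfold Rt
      rw [Nat.card_eq_zero]
      left
      refine ⟨fun r => ?_⟩
      refine hcon (algebraMap K L c₀) hc₀ r.1 ?_ r.2.2
      exact r.2.1
    have h := Rt_rel (p := p) hl₁K hl₂K σ
    have h2 : Rt p (l₂ : K) σ = 0 := h0 _ (by
      intro x
      rw [map_natCast]
      exact hb x)
    have h3 : ∀ i, Rt p ((l₁ : K) * (l₂ : K) ^ i) σ = 0 := fun i => h0 _ (by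
      intro x
      rw [map_mul, map_pow, map_natCast, map_natCast]
      exact hab i x)
    rw [h2, Finset.sum_eq_zero fun i _ => h3 i, mul_zero] at h
    have := hp.out.pos
    omega
  -- the field
  have hirr : Irreducible (Polynomial.X ^ p - Polynomial.C c) := X_pow_sub_C_irreducible_of_prime hp.out hc
  have hmin : minpoly L η = Polynomial.X ^ p - Polynomial.C c := by
    refine (minpoly.eq_of_irreducible_of_monic hirr ?_ (Polynomial.monic_X_pow_sub_C c
      hp.out.ne_zero)).symm
    rw [map_sub, map_pow, Polynomial.aeval_X, Polynomial.aeval_C, hη]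
    exact sub_self _
  have hint : IsIntegral L η := Algebra.IsIntegral.isIntegral η
  have hdeg : Module.finrank L (IntermediateField.adjoin L {η}) = p := by
    rw [IntermediateField.adjoin.finrank hint, hmin, Polynomial.natDegree_X_pow_sub_C]
  have hfdη : FiniteDimensional L (IntermediateField.adjoin L {η}) :=
    IntermediateField.adjoin.finiteDimensional hint
  let L' : IntermediateField K (AlgebraicClosure K) :=
    (IntermediateField.adjoin L {η}).restrictScalars K
  refine ⟨L', ?_, ?_, ?_⟩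
  · exact FiniteDimensional.trans K L (IntermediateField.adjoin L {η})
  · intro z hz
    have hz' : z ∈ IntermediateField.adjoin L {η} := hz
    let G : IntermediateField L (AlgebraicClosure K) :=
      { (fx σ) with
        algebraMap_mem' := fun r => hLσ r.2 }
    have h1 : IntermediateField.adjoin L {η} ≤ G := by
      rw [IntermediateField.adjoin_le_iff]
      rintro _ rfl
      exact mem_fx.2 hση
    exact h1 hz'
  · have h1 := Module.finrank_mul_finrank K L (IntermediateField.adjoin L {η})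
    rw [hdeg] at h1
    exact h1.symm

/-- **The degree.** -/
theorem wide_deg {M : ℕ} (hM : 0 < M) : Wide {F : IntermediateField K (AlgebraicClosure K) |
    FiniteDimensional K F ∧ M ∣ Module.finrank K F} := by
  refine ⟨fun F h => h.1, fun F h F' hfd hle => ⟨hfd, h.2.trans ?_⟩, fun σ => ?_⟩
  · exact IntermediateField.finrank_dvd_of_le_right hle
  · have h1 : ∀ M : ℕ, 0 < M → ∃ L : IntermediateField K (AlgebraicClosure K),
        FiniteDimensional K L ∧ L ≤ fx σ ∧ M ∣ Module.finrank K L := by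
      intro M
      induction M using Nat.strong_induction_on with
      | _ M ih =>
        intro hM
        rcases Nat.eq_or_lt_of_le (Nat.succ_le_of_lt hM) with h1 | h1
        · refine ⟨⊥, inferInstance, bot_le, ?_⟩
          rw [← h1]
          exact one_dvd _
        · obtain ⟨p, hp, c, rfl⟩ := Nat.exists_prime_and_dvd (show M ≠ 1 by omega)
          have : Fact p.Prime := ⟨hp⟩
          have hc : 0 < c := Nat.pos_of_mul_pos_left hM
          have hlt : c < p * c := by
            have := hp.two_le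
            nlinarith
          obtain ⟨L, hfd, hle, hdvd⟩ := ih c hlt hc
          obtain ⟨L', h1, h2, h3⟩ := deg_step σ hfd hle p
          refine ⟨L', h1, h2, ?_⟩
          rw [h3, mul_comm p c]
          exact mul_dvd_mul_right hdvd p
    obtain ⟨L, h2, h3, h4⟩ := h1 M hM
    exact ⟨L, ⟨h2, h4⟩, fun x hx => mem_fx.1 (h3 hx)⟩

end

end Pool.Agent.Q5.HR
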