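import Pool.Agent.H437R2.Man.MWWeak
import Pool.Agent.Q5.HR.Dup

/-! Triples of abscissas with product of the values a square, avoiding finitely many values and
square classes. -/

set_option autoImplicit false

namespace Pool.Agent.Q5.HR

open NumberField IsDedekindDomain

section
variable {K : Type} [Field K] [NumberField K]

theorem exists_unif {v w : HeightOneSpectrum (𝓞 K)} (hvw : v ≠ w) :
    ∃ c : K, v.valuation K c = WithZero.exp (-1 : ℤ) ∧ w.valuation K c = 1 := by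
  obtain ⟨π, hπ⟩ := v.intValuation_exists_uniformizer
  have hne : v.asIdeal ≠ w.asIdeal := fun h => hvw (HeightOneSpectrum.ext h)
  have hvm := v.isMaximal
  have hwm := w.isMaximal
  have hco : IsCoprime (v.asIdeal ^ 2) w.asIdeal :=
    (Ideal.isCoprime_of_isMaximal hne).pow_left
  obtain ⟨α, hα, β, hβ, hαβ⟩ := Ideal.isCoprime_iff_exists.1 hco
  refine ⟨((π * β + α : 𝓞 K) : K), ?_, ?_⟩
  · have h1 : v.intValuation (π * β + α) = v.intValuation π := by
      have h2 : π * β + α = π + α * (1 - π) := by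
        have h3 : β = 1 - α := by rw [← hαβ]; ring
        rw [h3]
        ring
      rw [h2]
      refine Valuation.map_add_eq_of_lt_left _ ?_
      have h4 : v.intValuation (α * (1 - π)) ≤ WithZero.exp (-(2 : ℕ) : ℤ) :=
        (v.intValuation_le_pow_iff_mem _ 2).2 ((v.asIdeal ^ 2).mul_mem_right _ hα)
      rw [hπ]
      refine h4.trans_lt ?_
      rw [WithZero.exp_lt_exp]
      norm_num
    have h5 : v.valuation K ((π * β + α : 𝓞 K) : K) = v.intValuation (π * β + α) :=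
      v.valuation_of_algebraMap _
    rw [h5, h1, hπ]
  · have h5 : w.valuation K ((π * β + α : 𝓞 K) : K) = 1 ↔ (π * β + α) ∉ w.asIdeal :=
      w.valuation_eq_one_iff_notMem
    rw [h5]
    intro h
    have h2 : (1 : 𝓞 K) ∈ w.asIdeal := by
      have h3 : (1 : 𝓞 K) = (π * β + α) + β * (1 - π) := by
        linear_combination -hαβ
      rw [h3]
      exact w.asIdeal.add_mem h (w.asIdeal.mul_mem_right _ hβ)
    exact hwm.ne_top ((Ideal.eq_top_iff_one _).2 h2)

theorem infinite_primes (K : Type) [Field K] [NumberField K] :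
    Infinite (HeightOneSpectrum (𝓞 K)) := by
  have h : ∀ l : Nat.Primes, ∃ v : HeightOneSpectrum (𝓞 K),
      v.asIdeal.under ℤ = Ideal.span {((l : ℕ) : ℤ)} := by
    intro l
    have hl0 : ((l : ℕ) : ℤ) ≠ 0 := by exact_mod_cast l.2.ne_zero
    have hp : (Ideal.span {((l : ℕ) : ℤ)}).IsPrime :=
      (Ideal.span_singleton_prime hl0).2 (Nat.prime_iff_prime_int.1 l.2)
    have hne : Ideal.span {((l : ℕ) : ℤ)} ≠ ⊥ := by
      rw [Ne, Ideal.span_singleton_eq_bot]
      exact hl0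
    have hm : (Ideal.span {((l : ℕ) : ℤ)}).IsMaximal := hp.isMaximal hne
    obtain ⟨Q, hQ, hQ'⟩ := Ideal.exists_maximal_ideal_liesOver_of_isIntegral
      (S := 𝓞 K) (Ideal.span {((l : ℕ) : ℤ)})
    have hQ0 : Q ≠ ⊥ := by
      rintro rfl
      apply hne
      rw [hQ'.over]
      exact Ideal.under_bot _ _
    exact ⟨⟨Q, hQ.isPrime, hQ0⟩, hQ'.over.symm⟩
  choose f hf using h
  refine Infinite.of_injective f fun l l' hll' => ?_
  have h1 := (hf l).symm.trans ((congrArg (fun v => v.asIdeal.under ℤ) hll').trans (hf l'))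
  rw [Ideal.span_singleton_eq_span_singleton, Int.associated_iff_natAbs] at h1
  exact Subtype.ext (by simpa using h1)

/-- valuations of the values of a cubic polynomial -/
theorem val_cubic {v : HeightOneSpectrum (𝓞 K)} {A B X : K} (hA : v.valuation K A = 1)
    (hB : v.valuation K B = 1) {n : ℕ} (hn : 0 < n) (hX : v.valuation K X = WithZero.exp (n : ℤ)) :
    v.valuation K (X ^ 3 + A * X + B) = WithZero.exp ((3 * n : ℕ) : ℤ) := by
  have h3 : v.valuation K (X ^ 3) = WithZero.exp ((3 * n : ℕ) : ℤ) := by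
    rw [map_pow, hX, ← WithZero.exp_nsmul]
    congr 1
  have h1 : v.valuation K (A * X) = WithZero.exp (n : ℤ) := by rw [map_mul, hA, one_mul, hX]
  have hlt : v.valuation K (A * X + B) < v.valuation K (X ^ 3) := by
    refine (Valuation.map_add _ _ _).trans_lt (max_lt ?_ ?_)
    · rw [h1, h3, WithZero.exp_lt_exp]
      push_cast
      omega
    · rw [hB, h3, ← WithZero.exp_zero, WithZero.exp_lt_exp]
      push_cast
      omega
  rw [add_assoc, Valuation.map_add_eq_of_lt_left _ hlt, h3]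

theorem not_class {v : HeightOneSpectrum (𝓞 K)} {z d c : K} (hd : v.valuation K d = 1) {n : ℕ}
    (hn : Odd n) (hz : v.valuation K z = WithZero.exp (n : ℤ)) : z ≠ d * c ^ 2 := by
  intro h
  have hc : v.valuation K c ≠ 0 := by
    intro h0
    rw [h, map_mul, map_pow, h0, zero_pow two_ne_zero, mul_zero] at hz
    exact WithZero.exp_ne_zero hz.symm
  rw [h, map_mul, map_pow, hd, one_mul, ← WithZero.exp_log hc, ← WithZero.exp_nsmul,
    WithZero.exp_inj] at hz
  obtain ⟨k, hk⟩ := hn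
  simp at hz
  omega

theorem triple {A B : K} (hA : A ≠ 0) (hB : B ≠ 0) {T D : Set K} (hT : T.Finite) (hD : D.Finite)
    (hD0 : ∀ d ∈ D, d ≠ 0) : ∃ X : Fin 3 → K,
      (∀ i, X i ^ 3 + A * X i + B ≠ 0) ∧ (∀ i, X i ∉ T) ∧
      (∀ i, ∀ d ∈ D, ∀ c : K, X i ^ 3 + A * X i + B ≠ d * c ^ 2) ∧
      ∃ e : K, e ^ 2 = ∏ i, (X i ^ 3 + A * X i + B) := by
  classical
  -- good primes
  have hbad : {v : HeightOneSpectrum (𝓞 K) | v.valuation K A ≠ 1 ∨ v.valuation K B ≠ 1 ∨
      (∃ d ∈ D, v.valuation K d ≠ 1) ∨ ∃ t ∈ T, t ≠ 0 ∧ v.valuation K t ≠ 1}.Finite := by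
    have h1 := Pool.Agent.H437R2.Man.MW.finite_val_ne_one A hA
    have h2 := Pool.Agent.H437R2.Man.MW.finite_val_ne_one B hB
    have h3 : (⋃ d ∈ D, {v : HeightOneSpectrum (𝓞 K) | v.valuation K d ≠ 1}).Finite :=
      hD.biUnion fun d hd => Pool.Agent.H437R2.Man.MW.finite_val_ne_one d (hD0 d hd)
    have h4 : (⋃ t ∈ T \ {0}, {v : HeightOneSpectrum (𝓞 K) | v.valuation K t ≠ 1}).Finite :=
      (hT.subset Set.sdiff_subset).biUnion fun t ht =>
        Pool.Agent.H437R2.Man.MW.finite_val_ne_one t ht.2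
    refine (((h1.union h2).union h3).union h4).subset ?_
    rintro v (h | h | ⟨d, hd, h⟩ | ⟨t, ht, ht0, h⟩)
    · exact Or.inl (Or.inl (Or.inl h))
    · exact Or.inl (Or.inl (Or.inr h))
    · exact Or.inl (Or.inr (Set.mem_biUnion hd h))
    · exact Or.inr (Set.mem_biUnion (show t ∈ T \ {0} from ⟨ht, ht0⟩) h)
  have hinf : Infinite (HeightOneSpectrum (𝓞 K)) := infinite_primes K
  obtain ⟨v, hv⟩ := hbad.exists_notMem
  obtain ⟨w, hw⟩ := (hbad.insert v).exists_notMem
  have hvw : v ≠ w := fun h => hw (Set.mem_insert_iff.2 (Or.inl h.symm))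
  have hw' : w ∉ {v : HeightOneSpectrum (𝓞 K) | v.valuation K A ≠ 1 ∨ v.valuation K B ≠ 1 ∨
      (∃ d ∈ D, v.valuation K d ≠ 1) ∨ ∃ t ∈ T, t ≠ 0 ∧ v.valuation K t ≠ 1} :=
    fun h => hw (Set.mem_insert_of_mem v h)
  simp only [Set.mem_ofPred_eq, not_or, not_exists, not_and, not_not] at hv hw'
  obtain ⟨hvA, hvB, hvD, hvT⟩ := hv
  obtain ⟨hwA, hwB, hwD, hwT⟩ := hw'
  obtain ⟨c₁, hc₁v, hc₁w⟩ := exists_unif hvw
  obtain ⟨c₂, hc₂w, hc₂v⟩ := exists_unif hvw.symm
  have notT : ∀ {u : HeightOneSpectrum (𝓞 K)}, (∀ t ∈ T, t ≠ 0 → u.valuation K t = 1) →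
      ∀ {x : K} {n : ℕ}, 0 < n → u.valuation K x = WithZero.exp (n : ℤ) → x ∉ T := by
    intro u hu x n hn hx hxT
    have hx0 : x ≠ 0 := by
      rintro rfl
      rw [map_zero] at hx
      exact WithZero.exp_ne_zero hx.symm
    rw [hu x hxT hx0, eq_comm, WithZero.exp_eq_one] at hx
    omega
  have ne_of : ∀ {u : HeightOneSpectrum (𝓞 K)} {x : K} {n : ℤ},
      u.valuation K x = WithZero.exp n → x ≠ 0 := by
    rintro u x n hx rfl
    rw [map_zero] at hx
    exact WithZero.exp_ne_zero hx.symm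
  have hc₁ : c₁ ≠ 0 := ne_of hc₁v
  have hc₂ : c₂ ≠ 0 := ne_of hc₂w
  -- the first abscissa
  obtain ⟨s, hs⟩ : ∃ s : K, s = (c₁ * c₂)⁻¹ := ⟨_, rfl⟩
  have hsv : v.valuation K s = WithZero.exp ((1 : ℕ) : ℤ) := by
    rw [hs, map_inv₀, map_mul, hc₁v, hc₂v, mul_one, ← WithZero.exp_neg]
    rfl
  have hsw : w.valuation K s = WithZero.exp ((1 : ℕ) : ℤ) := by
    rw [hs, map_inv₀, map_mul, hc₁w, hc₂w, one_mul, ← WithZero.exp_neg]
    rfl
  have hfv := val_cubic hvA hvB one_pos hsv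
  have hfw := val_cubic hwA hwB one_pos hsw
  -- the parameter
  obtain ⟨t, ht⟩ : ∃ t : K, t = (s ^ 3 + A * s + B) * c₂ ^ 4 := ⟨_, rfl⟩
  have htv : v.valuation K t = WithZero.exp ((3 : ℕ) : ℤ) := by
    rw [ht, map_mul, map_pow, hc₂v, one_pow, mul_one, hfv]
    rfl
  have htw : w.valuation K t = WithZero.exp (-1 : ℤ) := by
    rw [ht, map_mul, map_pow, hc₂w, hfw, ← WithZero.exp_nsmul, ← WithZero.exp_add]
    rfl
  have ht0 : t ≠ 0 := ne_of htv
  have ht1v : v.valuation K (t + 1) = WithZero.exp ((3 : ℕ) : ℤ) := by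
    rw [Valuation.map_add_eq_of_lt_left, htv]
    rw [map_one, htv, ← WithZero.exp_zero, WithZero.exp_lt_exp]
    norm_num
  have ht1w : w.valuation K (t + 1) = 1 := by
    rw [Valuation.map_add_eq_of_lt_right, map_one]
    rw [map_one, htw, ← WithZero.exp_zero, WithZero.exp_lt_exp]
    norm_num
  have ht10 : t + 1 ≠ 0 := ne_of ht1v
  have hqv : v.valuation K (t * (t + 1) + 1) = WithZero.exp ((6 : ℕ) : ℤ) := by
    rw [Valuation.map_add_eq_of_lt_left, map_mul, htv, ht1v, ← WithZero.exp_add]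
    · rfl
    · rw [map_one, map_mul, htv, ht1v, ← WithZero.exp_add, ← WithZero.exp_zero,
        WithZero.exp_lt_exp]
      norm_num
  have hqw : w.valuation K (t * (t + 1) + 1) = 1 := by
    rw [Valuation.map_add_eq_of_lt_right, map_one]
    rw [map_one, map_mul, htw, ht1w, mul_one, ← WithZero.exp_zero, WithZero.exp_lt_exp]
    norm_num
  -- the third abscissa
  obtain ⟨x, hx⟩ : ∃ x : K, x = -(B * (t * (t + 1) + 1)) / (A * (t * (t + 1))) := ⟨_, rfl⟩
  have hxv : v.valuation K x = 1 := by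
    rw [hx, map_div₀, Valuation.map_neg, map_mul, map_mul, map_mul, hvA, hvB, hqv, htv, ht1v,
      one_mul, one_mul, ← WithZero.exp_add, ← WithZero.exp_sub]
    rfl
  have hxw : w.valuation K x = WithZero.exp ((1 : ℕ) : ℤ) := by
    rw [hx, map_div₀, Valuation.map_neg, map_mul, map_mul, map_mul, hwA, hwB, hqw, htw, ht1w,
      one_mul, one_mul, mul_one, ← WithZero.exp_zero, ← WithZero.exp_sub]
    rfl
  have htxv : v.valuation K (t * x) = WithZero.exp ((3 : ℕ) : ℤ) := by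
    rw [map_mul, hxv, mul_one, htv]
  have hf2 := val_cubic hvA hvB (by norm_num) htxv
  have hf3 := val_cubic hwA hwB one_pos hxw
  -- the identity
  have hid : (t * x) ^ 3 + A * (t * x) + B = t ^ 3 * (x ^ 3 + A * x + B) := by
    have h1 : x * (A * (t * (t + 1))) = -(B * (t * (t + 1) + 1)) := by
      rw [hx, div_mul_cancel₀]
      exact mul_ne_zero hA (mul_ne_zero ht0 ht10)
    linear_combination (1 - t) * h1
  refine ⟨![s, t * x, x], ?_, ?_, ?_, ?_⟩
  · intro i
    fin_cases i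
    · exact ne_of hfv
    · exact ne_of hf2
    · exact ne_of hf3
  · intro i
    fin_cases i
    · exact notT hvT one_pos hsv
    · exact notT hvT (by norm_num) htxv
    · exact notT hwT one_pos hxw
  · intro i d hd c
    fin_cases i
    · exact not_class (hvD d hd) (by decide) hfv
    · exact not_class (hvD d hd) (by decide) hf2
    · exact not_class (hwD d hd) (by decide) hf3
  · refine ⟨t ^ 2 * (x ^ 3 + A * x + B) / c₂ ^ 2, ?_⟩
    rw [Fin.prod_univ_three]
    change _ = (s ^ 3 + A * s + B) * ((t * x) ^ 3 + A * (t * x) + B) * (x ^ 3 + A * x + B)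
    rw [hid]
    have h2 : (s ^ 3 + A * s + B) = t / c₂ ^ 4 := by
      rw [ht, mul_div_assoc, div_self (pow_ne_zero 4 hc₂), mul_one]
    rw [h2]
    field_simp

/-- **Triples on a Weierstrass curve.** -/
theorem exists_triple {W : WeierstrassCurve K} (h4 : W.c₄ ≠ 0) (h6 : W.c₆ ≠ 0) {T D : Set K}
    (hT : T.Finite) (hD : D.Finite) (hD0 : ∀ d ∈ D, d ≠ 0) : ∃ x : Fin 3 → K,
      (∀ i, psi W (x i) ≠ 0) ∧ (∀ i, x i ∉ T) ∧
      (∀ i, ∀ d ∈ D, ∀ c : K, psi W (x i) ≠ d * c ^ 2) ∧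
      ∃ e : K, e ^ 2 = ∏ i, psi W (x i) := by
  have hA : -27 * W.c₄ ≠ 0 := mul_ne_zero (by norm_num) h4
  have hB : -54 * W.c₆ ≠ 0 := mul_ne_zero (by norm_num) h6
  obtain ⟨X, h1, h2, h3, e, he⟩ := triple hA hB (T := (fun x => 36 * x + 3 * W.b₂) '' T)
    (hT.image _) hD hD0
  have key : ∀ X : K, psi W ((X - 3 * W.b₂) / 36) =
      (X ^ 3 + -27 * W.c₄ * X + -54 * W.c₆) * ((108 : K)⁻¹) ^ 2 := by
    intro X
    unfold psi
    simp only [WeierstrassCurve.c₄, WeierstrassCurve.c₆]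
    field_simp
    ring
  refine ⟨fun i => (X i - 3 * W.b₂) / 36, fun i => ?_, fun i hi => ?_, fun i d hd c hc => ?_, ?_⟩
  · rw [key]
    exact mul_ne_zero (h1 i) (pow_ne_zero 2 (inv_ne_zero (by norm_num)))
  · apply h2 i
    refine ⟨_, hi, ?_⟩
    change 36 * ((X i - 3 * W.b₂) / 36) + 3 * W.b₂ = X i
    field_simp
    ring
  · apply h3 i d hd (c * 108)
    rw [key] at hc
    field_simp at hc
    linear_combination hc
  · refine ⟨e * (((108 : K)⁻¹) ^ 3), ?_⟩
    simp only [key]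
    rw [Finset.prod_mul_distrib, ← he, Finset.prod_const, Finset.card_univ, Fintype.card_fin]
    ring

end

end Pool.Agent.Q5.HR
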